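import Mathlib
import Pool.Agent.Helper95.FL.Stmts2

set_option autoImplicit false

/-!
# Piece I-3 of project FL: the form of a query
-/

namespace Pool.Agent.Helper30.FLQf


open Pool.Agent.Helper95.FL
open scoped Classical

variable {X V : Type} {𝒞 : Cx X V} {n : ℕ}

lemma ty_edge {e : V × V} (h : 𝒞.IsEdge e) : 𝒞.ty e.2 = 𝒞.ty e.1 + 1 := by
  obtain ⟨s, x, rfl⟩ := h
  simp only [Cx.edge, 𝒞.ty_vert]
  fin_cases s <;> rfl

lemma img_ne_swap (E : Emb 𝒞 n) {e e' : V × V} (h : 𝒞.IsEdge e) (h' : 𝒞.IsEdge e') :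
    E.img e ≠ (E.img e').swap := by
  intro hh
  have h1 : E.ν e.1 = E.ν e'.2 := congrArg Prod.fst hh
  have h2 : E.ν e.2 = E.ν e'.1 := congrArg Prod.snd hh
  have t1 := E.sep _ _ h1
  have t2 := E.sep _ _ h2
  have a := ty_edge h
  have a' := ty_edge h'
  rw [t1, t2, a'] at a
  generalize 𝒞.ty e'.1 = t at a
  revert a
  fin_cases t <;> decide

/-- Good edges with a common image (up to reversal) are equal. -/
lemma good_eq (E : Emb 𝒞 n) {e e' : V × V} (h : E.Good e) (h' : E.Good e')
    {p : Fin n × Fin n} (hp : p = E.img e ∨ p = (E.img e).swap)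
    (hp' : p = E.img e' ∨ p = (E.img e').swap) : e = e' := by
  rcases hp with hp | hp <;> rcases hp' with hp' | hp'
  · exact h'.2 e h.1 (hp.symm.trans hp')
  · exact absurd (hp.symm.trans hp') (img_ne_swap E h.1 h'.1)
  · exact absurd (hp'.symm.trans hp) (img_ne_swap E h'.1 h.1)
  · have : (E.img e).swap.swap = (E.img e').swap.swap := by rw [← hp, ← hp']
    rw [Prod.swap_swap, Prod.swap_swap] at this
    exact h'.2 e h.1 this

lemma qf_abs_le (E : Emb 𝒞 n) (q : Pool.Agent.Helper95.FL.Query n) (e : V × V) :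
    |E.qf q e| ≤ if E.Good e then |q.a (E.img e).1 (E.img e).2| +
      |q.a (E.img e).2 (E.img e).1| else 0 := by
  unfold Emb.qf
  split_ifs with h
  · exact abs_add_le _ _
  · simp

lemma sum_qf_le [Fintype V] (E : Emb 𝒞 n) (q : Pool.Agent.Helper95.FL.Query n) :
    ∑ e, |E.qf q e| ≤ ∑ i, ∑ j, |q.a i j| := by
  have h1 : ∑ e, |E.qf q e| ≤ ∑ e ∈ Finset.univ.filter (fun e => E.Good e),
      ∑ p ∈ ({E.img e, (E.img e).swap} : Finset (Fin n × Fin n)), |q.a p.1 p.2| := by
    rw [Finset.sum_filter]
    apply Finset.sum_le_sum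
    intro e _
    refine (qf_abs_le E q e).trans ?_
    split_ifs with h
    · rw [Finset.sum_pair (img_ne_swap E h.1 h.1)]
      rfl
    · exact le_refl _
  refine h1.trans ?_
  rw [← Finset.sum_biUnion]
  · rw [← Fintype.sum_prod_type' (f := fun i j => |q.a i j|)]
    exact Finset.sum_le_sum_of_subset_of_nonneg (Finset.subset_univ _)
      (fun _ _ _ => abs_nonneg _)
  · intro e he e' he' hne
    have hg : E.Good e := (Finset.mem_filter.mp (Finset.mem_coe.mp he)).2
    have hg' : E.Good e' := (Finset.mem_filter.mp (Finset.mem_coe.mp he')).2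
    rw [Function.onFun, Finset.disjoint_left]
    intro p hp hp'
    apply hne
    refine good_eq E hg hg' (p := p) ?_ ?_
    · simpa using hp
    · simpa using hp'

lemma card_qf_le [Fintype V] (E : Emb 𝒞 n) (q : Pool.Agent.Helper95.FL.Query n) :
    (Finset.univ.filter fun e => E.qf q e ≠ 0).card ≤
      (Finset.univ.filter fun p : Fin n × Fin n => q.a p.1 p.2 ≠ 0).card := by
  have key : ∀ e, E.qf q e ≠ 0 → E.Good e ∧
      (q.a (E.img e).1 (E.img e).2 ≠ 0 ∨ q.a (E.img e).2 (E.img e).1 ≠ 0) := by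
    intro e he
    unfold Emb.qf at he
    split_ifs at he with h
    · refine ⟨h, ?_⟩
      by_contra hcon
      push Not at hcon
      rw [hcon.1, hcon.2] at he
      exact he (by ring)
    · exact absurd rfl he
  refine Finset.card_le_card_of_injOn
    (fun e => if q.a (E.img e).1 (E.img e).2 ≠ 0 then E.img e else (E.img e).swap) ?_ ?_
  · intro e he
    have he' : E.qf q e ≠ 0 := (Finset.mem_filter.mp (Finset.mem_coe.mp he)).2
    obtain ⟨_, h2⟩ := key e he'
    rw [Finset.mem_coe, Finset.mem_filter]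
    refine ⟨Finset.mem_univ _, ?_⟩
    dsimp only
    split_ifs with h
    · exact h
    · rcases h2 with h2 | h2
      · exact absurd h2 h
      · exact h2
  · intro e he e' he' hh
    have hg := (key e (Finset.mem_filter.mp (Finset.mem_coe.mp he)).2).1
    have hg' := (key e' (Finset.mem_filter.mp (Finset.mem_coe.mp he')).2).1
    dsimp only at hh
    refine good_eq E hg hg' (p := if q.a (E.img e).1 (E.img e).2 ≠ 0 then E.img e
      else (E.img e).swap) ?_ ?_
    · split_ifs
      · exact Or.inl rfl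
      · exact Or.inr rfl
    · rw [hh]
      split_ifs
      · exact Or.inl rfl
      · exact Or.inr rfl

/-- I-3. -/
theorem stQf : StQf := by
  intro X V _ 𝒞 n c E q hn hc hq
  refine ⟨?_, ?_, ?_⟩
  · intro e he
    unfold Emb.qf at he
    split_ifs at he with h
    · exact h.1
    · exact absurd rfl he
  · rcases hq.2 with h | h
    · exact Or.inl ((card_qf_le E q).trans h.1)
    · exact Or.inr ((sum_qf_le E q).trans h)
  · intro e
    have hnc : (3 : ℤ) ≤ (n : ℤ) ^ c := by
      have h3 : (3 : ℤ) ≤ n := by exact_mod_cast hn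
      calc (3 : ℤ) = 3 ^ 1 := by norm_num
        _ ≤ 3 ^ c := pow_le_pow_right₀ (by norm_num) hc
        _ ≤ (n : ℤ) ^ c := pow_le_pow_left₀ (by norm_num) h3 c
    rcases hq.2 with h | h
    · refine (qf_abs_le E q e).trans ?_
      split_ifs with hg
      · have h1 := h.2 (E.img e).1 (E.img e).2
        have h2 := h.2 (E.img e).2 (E.img e).1
        linarith
      · linarith
    · have h1 : |E.qf q e| ≤ ∑ e, |E.qf q e| :=
        Finset.single_le_sum (f := fun e => |E.qf q e|) (fun _ _ => abs_nonneg _)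
          (Finset.mem_univ e)
      have h2 := (sum_qf_le E q).trans h
      linarith

end Pool.Agent.Helper30.FLQf
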